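import Pool.Agent.helper36.DL3.Proper

/-!
# Mistake bounds for learners of decision lists with decision list hypotheses

The definitions `Cube`, `evalDL`, `IsDecisionList`, `relevant`, `Learner`, `mistakes` are in
`Pool/Agent/helper36/DL/Model.lean`, and `Shallow`, `evalKDL`, `IsKDecisionList` in
`Pool/Agent/helper36/DL3/Proper.lean`. No bound on the running time is imposed on a learner.
-/

namespace Pool.Agent.Results.MP_f738da_lc.ProperLearners

open Pool.Agent.helper36.DL Pool.Agent.helper36.DL3

/-- First part: `k`-decision lists (of any length) are shallow: every subcube contains a subcube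
with at most `k` more fixed coordinates on which the function is constant. Second part: if all
hypotheses of a learner are shallow, it makes at least `⌈r / 2⌉ * ⌊(n - r) / (2 k)⌋` mistakes on
some decision list with at most `r` relevant variables. -/
theorem result :
    (∀ (n k : ℕ) (f : Cube n → Bool), IsKDecisionList k f → Shallow k f) ∧
    (∀ n k r : ℕ, r ≤ n → ∀ A : Learner n, (∀ h, Shallow k (A h)) →
      ∃ c : Cube n → Bool, IsDecisionList c ∧ (relevant c).ncard ≤ r ∧
        ∃ xs, (r + 1) / 2 * ((n - r) / (2 * k)) ≤ mistakes A c [] xs) :=
  ⟨fun _ _ _ hf => shallow_of_kdl hf, fun _ _ _ hr A hA => shallow_learner A hA hr⟩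

end Pool.Agent.Results.MP_f738da_lc.ProperLearners
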