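import Pool.Agent.helper36.DL3.Final
import Pool.Agent.helper36.DL4.Adv

/-!
# Mistake bounds for learners of decision lists with polynomial threshold hypotheses

The definitions `Cube`, `evalDL`, `IsDecisionList`, `relevant`, `Learner`, `mistakes`, `IsPTF` are
in `Pool/Agent/helper36/DL/Model.lean`, and `alts`, `IsAltDecisionList` (decision lists with a
bounded number of alternations) in `Pool/Agent/helper36/DL4/Adv.lean`. No bound on the running
time is imposed on a learner.
-/

namespace Pool.Agent.Results.MP_f738da_lc.ThresholdLearners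

open Pool.Agent.helper36.DL Pool.Agent.helper36.DL4

/-- First part: if all hypotheses `A h` of a learner `A` over `n ≥ r * ((2 * g) ^ m * 2 ^ a)`
variables are polynomial threshold functions of degree at most `d`, where
`r = 8 * g * d ^ 2 * m`, then some decision list with at most `r` relevant variables and at most
`m` alternations forces `A` to make at least
`((2 * g) ^ m - 1) / d + a * ((2 * g) ^ m / (2 * d))` mistakes (the divisions are rounded down).

Second part: if `(deg r + 1) ^ 2 * log r ≤ r / K` for arbitrarily large `r`, for every `K`, then no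
family `A n r` of learners with threshold hypotheses of degree at most `deg r` has a mistake bound
`C * (r + 1) ^ C * (log n + 1) ^ C` on the decision lists over `n` variables with at most `r`
relevant ones. -/
theorem result :
    (∀ d g m a n : ℕ, 1 ≤ d → 1 ≤ g → 1 ≤ m →
      8 * g * d ^ 2 * m * ((2 * g) ^ m * 2 ^ a) ≤ n →
      ∀ A : Learner n, (∀ h, IsPTF d (A h)) →
        ∃ c : Cube n → Bool, IsAltDecisionList m c ∧ (relevant c).ncard ≤ 8 * g * d ^ 2 * m ∧
          ∃ xs, ((2 * g) ^ m - 1) / d + a * ((2 * g) ^ m / (2 * d)) ≤ mistakes A c [] xs) ∧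
    (∀ deg : ℕ → ℕ, (∀ K R : ℕ, ∃ r ≥ R, K * (deg r + 1) ^ 2 * Nat.log 2 r ≤ r) →
      ∀ A : ∀ n : ℕ, ℕ → Learner n, (∀ n r h, IsPTF (deg r) (A n r h)) →
        ¬ ∃ C : ℕ, ∀ (n r : ℕ) (c : Cube n → Bool), IsDecisionList c →
          (relevant c).ncard ≤ r → ∀ xs : List (Cube n),
            mistakes (A n r) c [] xs ≤ C * (r + 1) ^ C * (Nat.log 2 n + 1) ^ C) :=
  ⟨fun d g m a n hd hg hm hn A hA =>
      Pool.Agent.helper36.DL4.ptf_learner d g m a n hd hg hm hn A hA,
    fun deg hdeg A hA => Pool.Agent.helper36.DL3.not_polyBound deg hdeg A hA⟩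

end Pool.Agent.Results.MP_f738da_lc.ThresholdLearners
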