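import Pool.Agent.helper18.DT.Lower

/-!
# Learners of decision lists whose hypotheses are decision trees of halfspaces or networks

The definitions `Cube`, `evalDL`, `IsDecisionList`, `relevant`, `Learner`, `mistakes` are in
`Pool/Agent/helper36/DL/Model.lean`, and `IsTree`, `IsLocalTree`, `blockTests`, `halfspaces`,
`evalTests`, `IsNet`, `val`, `FewMistakes` in `Pool/Agent/helper18/DT/Defs.lean`. No bound on the
running time is imposed on a learner.
-/

namespace Pool.Agent.Results.MP_f738da_lc.TreeLearners

open Pool.Agent.helper36.DL Pool.Agent.helper18.DT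

/-- The variables are split into three blocks by `β : Fin n → Fin 3`. The tests in `blockTests β`
are the functions of `x` which are monotone in three real numbers, each of which is an arbitrary
function of the variables in one block. All halfspaces are such tests (part 1). The hypotheses of
the learner `A` are, on some subcube given by the values of at most `s` variables, decision trees
with at most `2 ^ a` leaves whose inner nodes contain such tests; for instance (parts 2, 3 and 4)
Boolean functions of `a` tests, decision lists with `2 ^ a - 1` tests, or feedforward networks of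
any depth with `a - 1` rectified linear units or threshold gates.

Part 5: if every block has at least `q * v` variables, then some decision list with at most `3 * q`
relevant variables forces `A` to make at least
`(v - 1) / (3 * (√(v * a) + 1) + s + v / 2 ^ q)` mistakes, and part 6: at least
`(2 ^ q - 1) / 2 + b * (2 ^ q / 3)` mistakes if every block has at least
`q * (2 ^ q * (72 * 2 ^ q * a + 6 + 2 * s) * 2 ^ b)` variables. The divisions and the root are
rounded down.

Part 7: if the hypotheses of the learners `A n r` are such trees with at most `2 ^ a n r` leaves, on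
subcubes given by the values of at most `s n r` variables, every block has at least `n / K - 1`
variables, and the learners have a mistake bound `C * (r + 1) ^ C * (log n + 1) ^ C` on the
decision lists over `n` variables with at most `r` relevant ones, then `a n r + s n r + 1` is at
least `n / (log n + 2) ^ D` for `r = 3 * log n` and some `D`. Part 8: the same for networks with
at most `U n r` units.

Parts 9 and 10 show that this is sharp, as no time bound is imposed: networks with `n + 1` units
suffice for such a mistake bound, and if there are two blocks instead of three, then one test per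
hypothesis suffices. -/
theorem result :
    (∀ (n k : ℕ) (β : Fin n → Fin k), halfspaces n ⊆ blockTests β) ∧
    (∀ (n : ℕ) (𝒯 : Set (Cube n → Bool)) (k : ℕ) (T : Fin k → Cube n → Bool)
      (F : (Fin k → Bool) → Bool), (∀ i, T i ∈ 𝒯) → IsTree 𝒯 (2 ^ k) fun x => F fun i => T i x) ∧
    (∀ (n : ℕ) (𝒯 : Set (Cube n → Bool)) (l : List ((Cube n → Bool) × Bool)) (b : Bool),
      (∀ p ∈ l, p.1 ∈ 𝒯) → IsTree 𝒯 (l.length + 1) (evalTests l b)) ∧
    (∀ (n U : ℕ) (h : (Fin n → ℝ) → Bool), IsNet n U h →
      IsTree (halfspaces n) (2 ^ (U + 1)) fun x => h (val x)) ∧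
    (∀ (n q v a s : ℕ) (β : Fin n → Fin 3), 1 ≤ q → 1 ≤ v →
      (∀ p, q * v ≤ {j | β j = p}.ncard) →
      ∀ A : Learner n, (∀ h, IsLocalTree (blockTests β) (2 ^ a) s (A h)) →
        ∃ c : Cube n → Bool, IsDecisionList c ∧ (relevant c).ncard ≤ 3 * q ∧
          ∃ xs, (v - 1) / (3 * (Nat.sqrt (v * a) + 1) + s + v / 2 ^ q) ≤ mistakes A c [] xs) ∧
    (∀ (n q a s b : ℕ) (β : Fin n → Fin 3), 1 ≤ q →
      (∀ p, q * (2 ^ q * (72 * 2 ^ q * a + 6 + 2 * s) * 2 ^ b) ≤ {j | β j = p}.ncard) →
      ∀ A : Learner n, (∀ h, IsLocalTree (blockTests β) (2 ^ a) s (A h)) →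
        ∃ c : Cube n → Bool, IsDecisionList c ∧ (relevant c).ncard ≤ 3 * q ∧
          ∃ xs, (2 ^ q - 1) / 2 + b * (2 ^ q / 3) ≤ mistakes A c [] xs) ∧
    (∀ (a s : ℕ → ℕ → ℕ) (β : ∀ n : ℕ, ℕ → Fin n → Fin 3) (K : ℕ),
      (∀ n r p, n ≤ K * ({j | β n r j = p}.ncard + 1)) →
      ∀ A : ∀ n : ℕ, ℕ → Learner n,
        (∀ n r h, IsLocalTree (blockTests (β n r)) (2 ^ a n r) (s n r) (A n r h)) →
        FewMistakes A → ∃ D : ℕ, ∀ n, n ≤ (a n (3 * Nat.log 2 n) + s n (3 * Nat.log 2 n) + 1)
          * (Nat.log 2 n + 2) ^ D) ∧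
    (∀ (U : ℕ → ℕ → ℕ) (A : ∀ n : ℕ, ℕ → Learner n),
      (∀ n r h, ∃ u H, u ≤ U n r ∧ IsNet n u H ∧ ∀ x, A n r h x = H (val x)) →
      FewMistakes A → ∃ D : ℕ, ∀ n, n ≤ (U n (3 * Nat.log 2 n) + 1) * (Nat.log 2 n + 2) ^ D) ∧
    (∃ A : ∀ n : ℕ, ℕ → Learner n,
      (∀ n r h, ∃ H, IsNet n (n + 1) H ∧ ∀ x, A n r h x = H (val x)) ∧ FewMistakes A) ∧
    (∀ β : ∀ n : ℕ, ℕ → Fin n → Fin 2, ∃ A : ∀ n : ℕ, ℕ → Learner n,
      (∀ n r h, A n r h ∈ blockTests (β n r)) ∧ FewMistakes A) :=
  ⟨fun _ _ β => halfspaces_subset β,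
    fun _ _ k T F hT => isTree_comb k T F hT,
    fun _ _ l b hl => isTree_list l b hl,
    fun _ _ _ hh => isTree_net_val hh,
    fun n q v a s β hq hv hβ A hA => tree_learner n q v a s β hq hv hβ A hA,
    fun n q a s b β hq hβ A hA => tree_learner_log n q a s b β hq hβ A hA,
    fun a s β K hβ A hA hfew => large_trees a s β K hβ A hA hfew,
    fun U A hA hfew => large_nets U A hA hfew,
    many_units, two_blocks_few⟩

end Pool.Agent.Results.MP_f738da_lc.TreeLearners
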